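import Pool.Agent.N704.VP.DIF
import Pool.Agent.N805.VP.Stm3

/-! # From cells to boxes of differences

Project VP (helper805), part DIF2: adaptation (by helper296) of `N704/VP/DIF.lean` by helper704 to
errors `η / r ^ (k + 1)`.
-/

set_option autoImplicit false

open MeasureTheory Set Filter Topology
open Pool.Agent.N805.VP Pool.Agent.N704.VP

namespace Pool.Agent.N296.VP

theorem DIF2 : Pool.Agent.N805.VP.S_DIF2 := by
  intro hD l J x X hX k σ hσ hC a b hab ε hε
  set B : ℕ := ⌈2 + (∑ i, |a i|) + ∑ i, |b i|⌉₊ with hB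
  have s1 : 0 ≤ ∑ i, |a i| := Finset.sum_nonneg fun i _ => abs_nonneg _
  have s2 : 0 ≤ ∑ i, |b i| := Finset.sum_nonneg fun i _ => abs_nonneg _
  have hB0 : 2 + (∑ i, |a i|) + ∑ i, |b i| ≤ B := Nat.le_ceil _
  have hBa : ∀ i, 2 + |a i| ≤ B := fun i => by
    have : |a i| ≤ ∑ i, |a i| :=
      Finset.single_le_sum (f := fun i => |a i|) (fun _ _ => abs_nonneg _) (Finset.mem_univ i)
    linarith
  have hBb : ∀ i, 2 + |b i| ≤ B := fun i => by
    have : |b i| ≤ ∑ i, |b i| :=
      Finset.single_le_sum (f := fun i => |b i|) (fun _ _ => abs_nonneg _) (Finset.mem_univ i)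
    linarith
  have hB1 : 1 ≤ B := by
    have : (1 : ℝ) ≤ B := by linarith
    exact_mod_cast this
  obtain ⟨η, hη⟩ : ∃ η : ℝ, η = ε / (3 * (2 * B + 1) ^ (k + 1)) := ⟨_, rfl⟩
  have hη0 : 0 < η := by rw [hη]; positivity
  obtain ⟨r₀, hr₀, hCr⟩ := hC B η hη0
  -- the choice of `r`
  have t2 : ∀ c : ℝ, Tendsto (fun r : ℕ => c / (r : ℝ)) atTop (𝓝 0) := fun c =>
    tendsto_const_nhds.div_atTop tendsto_natCast_atTop_atTop
  have t3 : Tendsto (fun r : ℕ => ∏ i, (b i - a i + 4 / (r : ℝ))) atTop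
      (𝓝 (∏ i, (b i - a i + 0))) :=
    tendsto_finsetProd _ fun i _ => tendsto_const_nhds.add (t2 4)
  have t4 : Tendsto (fun r : ℕ => ∏ i, (b i - a i - 4 / (r : ℝ))) atTop
      (𝓝 (∏ i, (b i - a i - 0))) :=
    tendsto_finsetProd _ fun i _ => tendsto_const_nhds.sub (t2 4)
  simp only [add_zero, sub_zero] at t3 t4
  have ev3 : ∀ᶠ r : ℕ in atTop, ∏ i, (b i - a i + 4 / (r : ℝ)) < ∏ i, (b i - a i) + ε / 3 :=
    t3.eventually (gt_mem_nhds (by linarith))
  have ev4 : ∀ᶠ r : ℕ in atTop, ∏ i, (b i - a i) - ε / 3 < ∏ i, (b i - a i - 4 / (r : ℝ)) :=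
    t4.eventually (lt_mem_nhds (by linarith))
  have ev5 : ∀ᶠ r : ℕ in atTop, ∀ i, 4 / (r : ℝ) < b i - a i := by
    rw [eventually_all]
    intro i
    exact (t2 4).eventually (gt_mem_nhds (by linarith [hab i]))
  obtain ⟨r, hr2, hr3, hr4, hr6⟩ :=
    (ev3.and (ev4.and (ev5.and (eventually_ge_atTop r₀)))).exists
  have hr5 : 1 ≤ r := hr₀.trans hr6
  have hr0 : 0 < r := hr5
  have hrR : (1 : ℝ) ≤ r := by exact_mod_cast hr5
  have hr' : (0 : ℝ) < r := by linarith
  have hinv : 1 / (r : ℝ) ≤ 1 := by rw [div_le_one hr']; exact hrR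
  have hinv0 : 0 < 1 / (r : ℝ) := by positivity
  have h41 : 4 / (r : ℝ) = 4 * (1 / r) := by ring
  rw [h41] at hr2 hr3
  have hr4' : ∀ i, 4 * (1 / (r : ℝ)) < b i - a i := fun i => by rw [← h41]; exact hr4 i
  have hsq : 0 < Real.sqrt r := Real.sqrt_pos.2 hr'
  -- the common estimate
  have key : ∀ (α β : Fin k → ℝ), ∀ᶠ T in l, ∑ f ∈ Fs r B α β,
      σ * (mom (J T) (x T) (fun i => cell (1 / (r : ℝ)) (f i)) / X T -
        G (fun i => cell (1 / (r : ℝ)) (f i))) ≤ 2 * (ε / 3) := by
    intro α β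
    set N : ℝ := ((Fs r B α β).card : ℝ) with hN
    have hN0 : 0 ≤ N := Nat.cast_nonneg _
    have hNle : N ≤ (2 * B + 1) ^ (k + 1) * (r : ℝ) ^ (k + 1) := Fs_card hr0
    have hev : ∀ᶠ T in l, ∀ f ∈ Fs r B α β,
        σ * (mom (J T) (x T) (fun i => cell (1 / (r : ℝ)) (f i)) / X T -
        G (fun i => cell (1 / (r : ℝ)) (f i))) ≤ η / (r : ℝ) ^ (k + 1) +
          ε / (3 * (N + 1)) := by
      rw [Finset.eventually_all]
      intro f hf
      refine hCr r hr6 f (fun i => ?_) _ (by positivity)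
      have := (mem_Fs.1 hf).1 i
      push_cast at this
      exact this
    filter_upwards [hev] with T hT
    calc ∑ f ∈ Fs r B α β, σ * (mom (J T) (x T) (fun i => cell (1 / (r : ℝ)) (f i)) / X T -
        G (fun i => cell (1 / (r : ℝ)) (f i)))
        ≤ ∑ _f ∈ Fs r B α β, (η / (r : ℝ) ^ (k + 1) + ε / (3 * (N + 1))) :=
          Finset.sum_le_sum hT
      _ = N * (η / (r : ℝ) ^ (k + 1)) + N * (ε / (3 * (N + 1))) := by
          rw [Finset.sum_const, nsmul_eq_mul, mul_add]
      _ ≤ (2 * B + 1) ^ (k + 1) * (r : ℝ) ^ (k + 1) * (η / (r : ℝ) ^ (k + 1)) +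
          ε / 3 := by
          refine add_le_add (mul_le_mul_of_nonneg_right hNle (by positivity)) ?_
          rw [← mul_div_assoc, div_le_div_iff₀ (by positivity) (by norm_num)]
          nlinarith
      _ = 2 * (ε / 3) := by
          rw [hη]
          field_simp
          ring
  rcases hσ with rfl | rfl
  · set α : Fin k → ℝ := fun i => a i - 1 / r with hα
    set β : Fin k → ℝ := fun i => b i + 1 / r with hβ
    have hBα : ∀ i, 1 + |α i| ≤ B := fun i => by
      have h1 : |α i| ≤ |a i| + 1 := by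
        rw [hα]
        have := abs_sub (a i) (1 / (r : ℝ))
        rw [abs_of_pos hinv0] at this
        linarith
      linarith [hBa i]
    have hBβ : ∀ i, 1 + |β i| ≤ B := fun i => by
      have h1 : |β i| ≤ |b i| + 1 := by
        rw [hβ]
        have := abs_add_le (b i) (1 / (r : ℝ))
        rw [abs_of_pos hinv0] at this
        linarith
      linarith [hBb i]
    have ea : (fun i => α i + 1 / (r : ℝ)) = a := by funext i; rw [hα]; ring
    have eb : (fun i => β i - 1 / (r : ℝ)) = b := by funext i; rw [hβ]; ring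
    have hG := L3 hD (B := B) hr0 α β
    have hH : H (fun i => α i - 1 / (r : ℝ)) (fun i => β i + 1 / (r : ℝ)) ≤ H a b + ε / 3 := by
      have h5 := Hdiff hD (a := a) (b := b) (a' := fun i => α i - 1 / (r : ℝ))
        (b' := fun i => β i + 1 / (r : ℝ)) (fun i => by simp only [hα]; linarith)
        (fun i => (hab i).le) (fun i => by simp only [hβ]; linarith)
      have e : ∏ i, ((fun i => β i + 1 / (r : ℝ)) i - (fun i => α i - 1 / (r : ℝ)) i) =
          ∏ i, (b i - a i + 4 * (1 / (r : ℝ))) := by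
        refine Finset.prod_congr rfl fun i _ => ?_
        simp only [hα, hβ]
        ring
      rw [e] at h5
      linarith
    filter_upwards [key α β, hX] with T hT hXT
    have hcount := L1 (J T) (x T) hr0 hBα hBβ hB1
    rw [ea, eb] at hcount
    rw [one_mul]
    have h6 : ((dif (J T) (x T) a b).card : ℝ) / X T ≤
        ∑ f ∈ Fs r B α β, mom (J T) (x T) (fun i => cell (1 / (r : ℝ)) (f i)) / X T := by
      rw [← Finset.sum_div]
      exact div_le_div_of_nonneg_right hcount hXT.le
    simp only [one_mul, Finset.sum_sub_distrib] at hT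
    linarith
  · set α : Fin k → ℝ := fun i => a i + 1 / r with hα
    set β : Fin k → ℝ := fun i => b i - 1 / r with hβ
    have hBα : ∀ i, 1 + |α i| ≤ B := fun i => by
      have h1 : |α i| ≤ |a i| + 1 := by
        rw [hα]
        have := abs_add_le (a i) (1 / (r : ℝ))
        rw [abs_of_pos hinv0] at this
        linarith
      linarith [hBa i]
    have hBβ : ∀ i, 1 + |β i| ≤ B := fun i => by
      have h1 : |β i| ≤ |b i| + 1 := by
        rw [hβ]
        have := abs_sub (b i) (1 / (r : ℝ))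
        rw [abs_of_pos hinv0] at this
        linarith
      linarith [hBb i]
    have ea : (fun i => α i - 1 / (r : ℝ)) = a := by funext i; rw [hα]; ring
    have eb : (fun i => β i + 1 / (r : ℝ)) = b := by funext i; rw [hβ]; ring
    have hG := L4 hD hr0 hBα hBβ hB1
    have hH : H a b ≤ H (fun i => α i + 1 / (r : ℝ)) (fun i => β i - 1 / (r : ℝ)) + ε / 3 := by
      have h5 := Hdiff hD (a' := a) (b' := b) (a := fun i => α i + 1 / (r : ℝ))
        (b := fun i => β i - 1 / (r : ℝ)) (fun i => by simp only [hα]; linarith)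
        (fun i => by simp only [hα, hβ]; linarith [hr4' i])
        (fun i => by simp only [hβ]; linarith)
      have e : ∏ i, ((fun i => β i - 1 / (r : ℝ)) i - (fun i => α i + 1 / (r : ℝ)) i) =
          ∏ i, (b i - a i - 4 * (1 / (r : ℝ))) := by
        refine Finset.prod_congr rfl fun i _ => ?_
        simp only [hα, hβ]
        ring
      rw [e] at h5
      linarith
    filter_upwards [key α β, hX] with T hT hXT
    have hcount := L2 (J T) (x T) (B := B) hr0 (α := α) (β := β)
    rw [ea, eb] at hcount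
    have h6 : ∑ f ∈ Fs r B α β, mom (J T) (x T) (fun i => cell (1 / (r : ℝ)) (f i)) / X T ≤
        ((dif (J T) (x T) a b).card : ℝ) / X T := by
      rw [← Finset.sum_div]
      exact div_le_div_of_nonneg_right hcount hXT.le
    rw [← Finset.mul_sum, Finset.sum_sub_distrib] at hT
    linarith

end Pool.Agent.N296.VP
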